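import Pool.Agent.Helper83.TW.Goals1

/-! Cauchy estimates on the domains (packet TW-GCau). -/

set_option autoImplicit false

namespace Pool.Agent.Helper89.TW

open Complex Pool.Agent.Helper83.TW

theorem cau1 (f : ℂ → ℂ) (z0 : ℂ) (B δ : ℝ) (hδ : 0 < δ)
    (hf : DifferentiableOn ℂ f (Metric.ball z0 δ))
    (hB : ∀ z ∈ Metric.ball z0 δ, ‖f z‖ ≤ B) : ‖deriv f z0‖ ≤ B / δ := by
  have hB0 : 0 ≤ B := (norm_nonneg _).trans (hB z0 (Metric.mem_ball_self hδ))
  have key : ∀ δ' : ℝ, 0 < δ' → δ' < δ → ‖deriv f z0‖ * δ' ≤ B := by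
    intro δ' h0 h1
    have hd : DiffContOnCl ℂ f (Metric.ball z0 δ') :=
      hf.diffContOnCl_ball (Metric.closedBall_subset_ball h1)
    have h2 := norm_deriv_le_of_forall_mem_sphere_norm_le h0 hd
      (fun z hz => hB z (Metric.sphere_subset_closedBall.trans
        (Metric.closedBall_subset_ball h1) hz))
    rwa [le_div_iff₀ h0] at h2
  by_contra hcon
  rw [not_le] at hcon
  have hDpos : 0 < ‖deriv f z0‖ := lt_of_le_of_lt (by positivity) hcon
  have hD : B < ‖deriv f z0‖ * δ := by rwa [div_lt_iff₀ hδ] at hcon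
  have h3 : B / ‖deriv f z0‖ < δ := by rw [div_lt_iff₀ hDpos]; linarith
  have h4 : 0 ≤ B / ‖deriv f z0‖ := by positivity
  have h5 := key ((B / ‖deriv f z0‖ + δ) / 2) (by linarith) (by linarith)
  have h6 : ‖deriv f z0‖ * (B / ‖deriv f z0‖) = B := by field_simp
  nlinarith

theorem cauD1 (f : ℂ × ℂ → ℂ) (U : Set (ℂ × ℂ)) (B δ : ℝ) (hδ : 0 < δ)
    (hf : DifferentiableOn ℂ f U) (hB : ∀ p ∈ U, ‖f p‖ ≤ B) (p : ℂ × ℂ)
    (hp : ∀ z ∈ Metric.ball p.1 δ, (z, p.2) ∈ U) : ‖D1 f p‖ ≤ B / δ := by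
  apply cau1 _ _ _ _ hδ
  · have h1 : DifferentiableOn ℂ (fun z : ℂ => (z, p.2)) (Metric.ball p.1 δ) :=
      (differentiable_id.prodMk (differentiable_const _)).differentiableOn
    exact hf.comp h1 hp
  · intro z hz
    exact hB _ (hp z hz)

theorem cauD2 (f : ℂ × ℂ → ℂ) (U : Set (ℂ × ℂ)) (B δ : ℝ) (hδ : 0 < δ)
    (hf : DifferentiableOn ℂ f U) (hB : ∀ p ∈ U, ‖f p‖ ≤ B) (p : ℂ × ℂ)
    (hp : ∀ z ∈ Metric.ball p.2 δ, (p.1, z) ∈ U) : ‖D2 f p‖ ≤ B / δ := by
  apply cau1 _ _ _ _ hδ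
  · have h1 : DifferentiableOn ℂ (fun z : ℂ => (p.1, z)) (Metric.ball p.2 δ) :=
      ((differentiable_const _).prodMk differentiable_id).differentiableOn
    exact hf.comp h1 hp
  · intro z hz
    exact hB _ (hp z hz)

theorem reim {z w : ℂ} {δ : ℝ} (h : z ∈ Metric.ball w δ) :
    |z.re - w.re| < δ ∧ |z.im - w.im| < δ := by
  rw [Metric.mem_ball, dist_eq_norm] at h
  constructor
  · have := Complex.abs_re_le_norm (z - w)
    rw [Complex.sub_re] at this
    linarith
  · have := Complex.abs_im_le_norm (z - w)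
    rw [Complex.sub_im] at this
    linarith

theorem im_lt {z w : ℂ} {δ r : ℝ} (h : z ∈ Metric.ball w δ) (hw : |w.im| < r - δ) :
    |z.im| < r := by
  have h1 := (reim h).2
  rw [abs_lt] at *
  constructor <;> linarith [h1.1, h1.2, hw.1, hw.2]

theorem Om_ball {z w : ℂ} {s σ : ℝ} (h : z ∈ Metric.ball w σ) (hw : w ∈ Om (s - σ)) :
    z ∈ Om s := by
  obtain ⟨h1, h2, h3⟩ := hw
  have h4 := (reim h).1
  rw [abs_lt] at h4
  exact ⟨by linarith [h4.1, h4.2], by linarith [h4.1, h4.2], im_lt h h3⟩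

theorem gCau : GCau := by
  refine ⟨fun f z0 B δ hδ hf hB => cau1 f z0 B δ hδ hf hB, ?_, ?_, ?_, ?_⟩
  · intro f B r s δ hδ hf hB p hp
    exact cauD1 f (Dom r s) B δ hδ hf hB p (fun z hz => ⟨im_lt hz hp.1, hp.2⟩)
  · intro f B r s σ hσ hf hB p hp
    exact cauD2 f (Dom r s) B σ hσ hf hB p (fun z hz => ⟨hp.1, Om_ball hz hp.2⟩)
  · intro f B s σ hσ hf hB w hw
    exact cau1 f w B σ hσ (hf.mono (fun z hz => Om_ball hz hw)) (fun z hz => hB z (Om_ball hz hw))
  · intro f B ρ hρ hρ1 hf hB p hp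
    obtain ⟨h1, h2, h3, h4⟩ := hp
    have hB0 : 0 ≤ B := (norm_nonneg _).trans (hB p (DGh_subset hρ ⟨h1, h2, h3, h4⟩))
    -- points with margin in the second variable
    have hmem : ∀ w : ℂ, w ∈ Metric.ball p.2 (ρ/2) → (p.1, w) ∈ DG ρ := by
      intro w hw
      have h5 := (reim hw).1
      rw [abs_lt] at h5
      refine ⟨?_, ?_, ?_, ?_⟩
      · show |p.1.im| < ρ
        linarith
      · show 1/4 < w.re
        linarith [h5.1, h5.2]
      · show w.re < 11/4
        linarith [h5.1, h5.2]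
      · show |w.im| < ρ
        exact im_lt hw (by linarith)
    refine ⟨?_, ?_, ?_⟩
    · have h6 := cauD1 f (DG ρ) B (ρ/2) (by linarith) hf hB p (fun z hz => by
        refine ⟨im_lt hz (by linarith), ?_, ?_, ?_⟩
        · show 1/4 < p.2.re
          linarith
        · show p.2.re < 11/4
          linarith
        · show |p.2.im| < ρ
          linarith)
      have h7 : B / (ρ/2) = 2 * B / ρ := by field_simp
      rwa [h7] at h6
    · have h6 := cauD2 f (DG ρ) B (ρ/2) (by linarith) hf hB p hmem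
      have h7 : B / (ρ/2) = 2 * B / ρ := by field_simp
      rwa [h7] at h6
    · -- second derivative
      have hV : DifferentiableOn ℂ (fun w : ℂ => f (p.1, w)) (Metric.ball p.2 (ρ/2)) := by
        have h8 : DifferentiableOn ℂ (fun z : ℂ => (p.1, z)) (Metric.ball p.2 (ρ/2)) :=
          ((differentiable_const _).prodMk differentiable_id).differentiableOn
        exact hf.comp h8 hmem
      have hV' : DifferentiableOn ℂ (fun w : ℂ => D2 f (p.1, w)) (Metric.ball p.2 (ρ/4)) := by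
        have h9 : DifferentiableOn ℂ (deriv (fun w : ℂ => f (p.1, w)))
            (Metric.ball p.2 (ρ/2)) := hV.deriv Metric.isOpen_ball
        exact h9.mono (Metric.ball_subset_ball (by linarith))
      have hb : ∀ w ∈ Metric.ball p.2 (ρ/4), ‖D2 f (p.1, w)‖ ≤ B / (ρ/4) := by
        intro w hw
        refine cauD2 f (DG ρ) B (ρ/4) (by linarith) hf hB (p.1, w) ?_
        intro z hz
        apply hmem
        rw [Metric.mem_ball] at *
        have := dist_triangle z w p.2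
        have hz' : dist z w < ρ/4 := hz
        linarith
      have h10 := cau1 (fun w : ℂ => D2 f (p.1, w)) p.2 (B / (ρ/4)) (ρ/4) (by linarith) hV' hb
      have h11 : B / (ρ/4) / (ρ/4) = 16 * B / ρ ^ 2 := by field_simp; norm_num
      rw [h11] at h10
      exact h10

end Pool.Agent.Helper89.TW
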