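import Pool.Agent.Helper83.TW.Goals1
import Pool.Agent.Helper89.TW.Cau

/-! Fourier coefficients of periodic holomorphic functions on a strip (packet TW-GFour). -/

set_option autoImplicit false

namespace Pool.Agent.Helper89.TW

open Complex Set Pool.Agent.Helper83.TW MeasureTheory Filter
open scoped Interval Topology

/-- strip -/
def Sp (R : ℝ) : Set ℂ := {z | |z.im| < R}

theorem isOpen_Sp (R : ℝ) : IsOpen (Sp R) :=
  isOpen_lt (continuous_abs.comp continuous_im) continuous_const

theorem shiftAll (R : ℝ) (G : ℂ → ℂ) (hG : DifferentiableOn ℂ G (Sp R))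
    (per : ∀ z ∈ Sp R, G (z + 1) = G z) (z0 : ℂ) (hz0 : z0 ∈ Sp R) :
    ∫ x in (0:ℝ)..1, G (z0 + x) = ∫ x in (0:ℝ)..1, G x := by
  have hz0' : |z0.im| < R := hz0
  have hR : 0 < R := lt_of_le_of_lt (abs_nonneg _) hz0'
  have hrect := Complex.integral_boundary_rect_eq_zero_of_differentiableOn G 0
    (1 + z0.im * I) (by
      apply hG.mono
      intro z hz
      rw [mem_reProdIm] at hz
      have h1 := hz.2
      simp only [add_im, one_im, mul_im, ofReal_re, I_im, mul_one, ofReal_im, I_re, mul_zero,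
        add_zero, zero_add, zero_im] at h1
      have h2 : |z.im| ≤ |z0.im| := by
        rw [mem_uIcc] at h1
        rcases h1 with h1 | h1
        · rw [abs_of_nonneg h1.1, abs_of_nonneg (h1.1.trans h1.2)]; exact h1.2
        · rw [abs_of_nonpos h1.2, abs_of_nonpos (h1.1.trans h1.2)]; linarith [h1.1]
      exact lt_of_le_of_lt h2 hz0')
  simp only [add_im, one_im, mul_im, ofReal_re, I_im, mul_one, ofReal_im, I_re, mul_zero,
        add_zero, zero_add, zero_im, zero_re, add_re, one_re, mul_re,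
        ofReal_zero, zero_mul, ofReal_one, sub_self] at hrect
  have hv : ∫ y in (0:ℝ)..z0.im, G (1 + y * I) = ∫ y in (0:ℝ)..z0.im, G (y * I) := by
    apply intervalIntegral.integral_congr
    intro y hy
    have h2 : |y| ≤ |z0.im| := by
        rw [mem_uIcc] at hy
        rcases hy with h1 | h1
        · rw [abs_of_nonneg h1.1, abs_of_nonneg (h1.1.trans h1.2)]; exact h1.2
        · rw [abs_of_nonpos h1.2, abs_of_nonpos (h1.1.trans h1.2)]; linarith [h1.1]
    have h3 : ((y:ℂ) * I) ∈ Sp R := by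
      show |((y:ℂ) * I).im| < R
      simp only [mul_im, ofReal_re, I_im, mul_one, ofReal_im, I_re, mul_zero, add_zero]
      linarith
    have h4 := per _ h3
    show G (1 + y * I) = G (y * I)
    rw [add_comm]
    exact h4
  rw [hv] at hrect
  have hh : ∫ x in (0:ℝ)..1, G (x + z0.im * I) = ∫ x in (0:ℝ)..1, G x := by
    have : (∫ x in (0:ℝ)..1, G x) - ∫ x in (0:ℝ)..1, G (x + z0.im * I) = 0 := by
      rw [← hrect]; ring
    exact (sub_eq_zero.mp this).symm
  rw [← hh]
  have hper : Function.Periodic (fun x : ℝ => G (x + z0.im * I)) 1 := by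
    intro x
    have h3 : ((x:ℂ) + z0.im * I) ∈ Sp R := by
      show |((x:ℂ) + z0.im * I).im| < R
      simpa using hz0'
    have h4 := per _ h3
    show G (((x + 1 : ℝ) : ℂ) + z0.im * I) = G (x + z0.im * I)
    rw [← h4]
    congr 1
    push_cast; ring
  have h5 := hper.intervalIntegral_add_eq z0.re 0
  have h6 : ∀ x : ℝ, G (z0 + x) = (fun x : ℝ => G (x + z0.im * I)) (z0.re + x) := by
    intro x
    show G (z0 + x) = G (((z0.re + x : ℝ) : ℂ) + z0.im * I)
    congr 1
    conv_lhs => rw [← Complex.re_add_im z0]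
    push_cast; ring
  calc ∫ x in (0:ℝ)..1, G (z0 + x)
      = ∫ x in (0:ℝ)..1, (fun x : ℝ => G (x + z0.im * I)) (z0.re + x) :=
        intervalIntegral.integral_congr (fun x _ => h6 x)
    _ = ∫ x in (z0.re + 0)..(z0.re + 1), (fun x : ℝ => G (x + z0.im * I)) x :=
        intervalIntegral.integral_comp_add_left (fun x : ℝ => G (x + z0.im * I)) z0.re
    _ = ∫ x in (0:ℝ)..1, G (x + z0.im * I) := by
        rw [add_zero, h5, zero_add]

/-- one-variable Fourier coefficient -/
noncomputable def c1 (f : ℂ → ℂ) (m : ℤ) : ℂ :=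
  ∫ x in (0:ℝ)..1, f (x : ℂ) * Complex.exp (-(2 * Real.pi * m * x : ℝ) * I)

theorem exp_int_per (m : ℤ) (z : ℂ) :
    Complex.exp (-(2 * Real.pi * m * (z + 1)) * I) = Complex.exp (-(2 * Real.pi * m * z) * I) := by
  have h : -(2 * Real.pi * m * (z + 1)) * I
      = -(2 * Real.pi * m * z) * I + ((-m : ℤ) : ℂ) * (2 * Real.pi * I) := by
    push_cast; ring
  rw [h, Complex.exp_add, Complex.exp_int_mul_two_pi_mul_I, mul_one]

theorem c1_shift (R : ℝ) (f : ℂ → ℂ) (hf : DifferentiableOn ℂ f (Sp R))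
    (per : ∀ z ∈ Sp R, f (z + 1) = f z) (m : ℤ) (z0 : ℂ) (hz0 : z0 ∈ Sp R) :
    ∫ x in (0:ℝ)..1, f (z0 + x) * Complex.exp (-(2 * Real.pi * m * x : ℝ) * I)
      = c1 f m * Complex.exp (2 * Real.pi * m * I * z0) := by
  have h1 := shiftAll R (fun z => f z * Complex.exp (-(2 * Real.pi * m * z) * I))
    (hf.mul (by fun_prop)) (by
      intro z hz
      show f (z + 1) * Complex.exp (-(2 * Real.pi * m * (z + 1)) * I)
        = f z * Complex.exp (-(2 * Real.pi * m * z) * I)
      rw [per z hz, exp_int_per]) z0 hz0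
  have h2 : c1 f m = ∫ x in (0:ℝ)..1, f (x:ℂ) * Complex.exp (-(2 * Real.pi * m * (x:ℂ)) * I) := by
    unfold c1
    apply intervalIntegral.integral_congr
    intro x _
    show f (x:ℂ) * Complex.exp (-(2 * Real.pi * m * x : ℝ) * I)
      = f (x:ℂ) * Complex.exp (-(2 * Real.pi * m * (x:ℂ)) * I)
    push_cast; rfl
  rw [h2, ← h1, ← intervalIntegral.integral_mul_const]
  apply intervalIntegral.integral_congr
  intro x _
  show f (z0 + x) * Complex.exp (-(2 * Real.pi * m * x : ℝ) * I)
    = f (z0 + x) * Complex.exp (-(2 * Real.pi * m * (z0 + x)) * I)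
      * Complex.exp (2 * Real.pi * m * I * z0)
  rw [mul_assoc (f (z0 + x)), ← Complex.exp_add]
  congr 2
  push_cast; ring

theorem c1_bound (R B : ℝ) (hR : 0 < R) (f : ℂ → ℂ) (hf : DifferentiableOn ℂ f (Sp R))
    (per : ∀ z ∈ Sp R, f (z + 1) = f z) (hB : ∀ z ∈ Sp R, ‖f z‖ ≤ B) (m : ℤ) :
    ‖c1 f m‖ ≤ B * Real.exp (-(2 * Real.pi * |(m:ℝ)| * R)) := by
  -- for every height
  have key : ∀ y : ℝ, |y| < R → ‖c1 f m‖ ≤ B * Real.exp (2 * Real.pi * m * y) := by
    intro y hy
    have hz0 : ((y:ℂ) * I) ∈ Sp R := by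
      show |((y:ℂ) * I).im| < R
      simpa using hy
    have h1 := c1_shift R f hf per m ((y:ℂ) * I) hz0
    have h2 : ‖∫ x in (0:ℝ)..1, f (y * I + x) * Complex.exp (-(2 * Real.pi * m * x : ℝ) * I)‖
        ≤ B * |1 - 0| := by
      apply intervalIntegral.norm_integral_le_of_norm_le_const
      intro x _
      rw [norm_mul]
      have h3 : ‖Complex.exp (-(2 * Real.pi * m * x : ℝ) * I)‖ = 1 := by
        have : (-(2 * Real.pi * m * x : ℝ) * I : ℂ) = ((-(2 * Real.pi * m * x) : ℝ) : ℂ) * I := by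
          push_cast; ring
        rw [this, Complex.norm_exp_ofReal_mul_I]
      rw [h3, mul_one]
      apply hB
      show |((y:ℂ) * I + x).im| < R
      simpa using hy
    rw [h1, norm_mul] at h2
    have h4 : ‖Complex.exp (2 * Real.pi * m * I * (y * I))‖ = Real.exp (-(2 * Real.pi * m * y)) := by
      rw [Complex.norm_exp]
      congr 1
      have : (2 * Real.pi * m * I * (y * I) : ℂ) = ((-(2 * Real.pi * m * y) : ℝ) : ℂ) := by
        push_cast
        have : I * (y * I) = -(y:ℂ) := by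
          rw [mul_comm (y:ℂ) I, ← mul_assoc, I_mul_I]; ring
        rw [mul_assoc (2 * (Real.pi:ℂ) * m), this]; ring
      rw [this, Complex.ofReal_re]
    rw [h4] at h2
    have h5 : Real.exp (-(2 * Real.pi * m * y)) * Real.exp (2 * Real.pi * m * y) = 1 := by
      rw [← Real.exp_add]; simp
    have h6 : 0 < Real.exp (2 * Real.pi * m * y) := Real.exp_pos _
    calc ‖c1 f m‖ = ‖c1 f m‖ * (Real.exp (-(2 * Real.pi * m * y))
          * Real.exp (2 * Real.pi * m * y)) := by rw [h5, mul_one]
      _ = ‖c1 f m‖ * Real.exp (-(2 * Real.pi * m * y)) * Real.exp (2 * Real.pi * m * y) := by ring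
      _ ≤ (B * |1 - 0|) * Real.exp (2 * Real.pi * m * y) :=
          mul_le_mul_of_nonneg_right h2 h6.le
      _ = B * Real.exp (2 * Real.pi * m * y) := by norm_num
  -- let the height tend to `R`
  have key2 : ∀ t ∈ Ioo (0:ℝ) R, ‖c1 f m‖ ≤ B * Real.exp (-(2 * Real.pi * |(m:ℝ)| * t)) := by
    intro t ht
    rcases le_or_gt 0 (m:ℝ) with hm | hm
    · have h1 := key (-t) (by rw [abs_neg, abs_of_pos ht.1]; exact ht.2)
      rw [abs_of_nonneg hm]
      have : 2 * Real.pi * m * (-t) = -(2 * Real.pi * m * t) := by ring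
      rwa [this] at h1
    · have h1 := key t (by rw [abs_of_pos ht.1]; exact ht.2)
      rw [abs_of_neg hm]
      have : 2 * Real.pi * m * t = -(2 * Real.pi * (-(m:ℝ)) * t) := by ring
      rwa [this] at h1
  have hcont : ContinuousWithinAt (fun t : ℝ => B * Real.exp (-(2 * Real.pi * |(m:ℝ)| * t)))
      (Iio R) R := by
    apply Continuous.continuousWithinAt
    fun_prop
  have hev : ∀ᶠ t in 𝓝[<] R, ‖c1 f m‖ ≤ B * Real.exp (-(2 * Real.pi * |(m:ℝ)| * t)) := by
    filter_upwards [Ioo_mem_nhdsLT hR] with t ht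
    exact key2 t ht
  exact ge_of_tendsto hcont hev

theorem gFour1 : GFour1 := by
  intro R B f C hR hf per hB m hm
  have h1 := c1_bound R B hR (fun z => f z - C) (hf.sub_const C) (fun z hz => by
    show f (z + 1) - C = f z - C
    rw [per z hz]) (fun z hz => hB z hz) m
  have h2 : c1 (fun z => f z - C) m
      = ∫ x in (0:ℝ)..1, f (x : ℂ) * Complex.exp (-(2 * Real.pi * m * x : ℝ) * I) := by
    have hc : Continuous (fun x : ℝ => f (x:ℂ)) := by
      have h3 : ContinuousOn f (Sp R) := hf.continuousOn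
      apply h3.comp_continuous Complex.continuous_ofReal
      intro x
      show |((x:ℂ)).im| < R
      simpa using hR
    have hi : Continuous (fun x : ℝ => Complex.exp (-(2 * Real.pi * m * x : ℝ) * I)) := by
      fun_prop
    have h4 : c1 (fun z => f z - C) m
        = (∫ x in (0:ℝ)..1, f (x : ℂ) * Complex.exp (-(2 * Real.pi * m * x : ℝ) * I))
          - ∫ x in (0:ℝ)..1, C * Complex.exp (-(2 * Real.pi * m * x : ℝ) * I) := by
      unfold c1
      rw [← intervalIntegral.integral_sub]
      · apply intervalIntegral.integral_congr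
        intro x _
        show (f (x:ℂ) - C) * Complex.exp (-(2 * Real.pi * m * x : ℝ) * I)
          = f (x : ℂ) * Complex.exp (-(2 * Real.pi * m * x : ℝ) * I)
            - C * Complex.exp (-(2 * Real.pi * m * x : ℝ) * I)
        ring
      · exact (hc.mul hi).intervalIntegrable _ _
      · exact (continuous_const.mul hi).intervalIntegrable _ _
    have h5 : ∫ x in (0:ℝ)..1, C * Complex.exp (-(2 * Real.pi * m * x : ℝ) * I) = 0 := by
      rw [intervalIntegral.integral_const_mul]
      have hne : (-(2 * Real.pi * m) * I : ℂ) ≠ 0 := by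
        have h6 : (Real.pi : ℂ) ≠ 0 := by exact_mod_cast Real.pi_ne_zero
        have h7 : (m : ℂ) ≠ 0 := by exact_mod_cast hm
        simp [h6, h7, I_ne_zero]
      have h8 : ∫ x in (0:ℝ)..1, Complex.exp (-(2 * Real.pi * m * x : ℝ) * I)
          = ∫ x in (0:ℝ)..1, Complex.exp ((-(2 * Real.pi * m) * I : ℂ) * x) := by
        apply intervalIntegral.integral_congr
        intro x _
        show Complex.exp (-(2 * Real.pi * m * x : ℝ) * I)
          = Complex.exp ((-(2 * Real.pi * m) * I : ℂ) * x)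
        congr 1
        push_cast; ring
      rw [h8, integral_exp_mul_complex hne]
      have h9 : Complex.exp ((-(2 * Real.pi * m) * I : ℂ) * (1:ℝ)) = 1 := by
        have : (-(2 * Real.pi * m) * I : ℂ) * (1:ℝ) = ((-m : ℤ) : ℂ) * (2 * Real.pi * I) := by
          push_cast; ring
        rw [this, Complex.exp_int_mul_two_pi_mul_I]
      rw [h9]
      simp
    rw [h4, h5, sub_zero]
  rw [h2] at h1
  exact h1

/-- the coefficients with a shifted centre sum up to the function -/
theorem hasSum_c1 (R : ℝ) (f : ℂ → ℂ) (hf : DifferentiableOn ℂ f (Sp R))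
    (per : ∀ z ∈ Sp R, f (z + 1) = f z) (z0 : ℂ) (hz0 : z0 ∈ Sp R)
    (hs : Summable (fun m : ℤ => c1 f m * Complex.exp (2 * Real.pi * m * I * z0))) :
    HasSum (fun m : ℤ => c1 f m * Complex.exp (2 * Real.pi * m * I * z0)) (f z0) := by
  have hz0' : |z0.im| < R := hz0
  have hp : Function.Periodic (fun x : ℝ => f (z0 + x)) 1 := by
    intro x
    have h3 : (z0 + (x:ℂ)) ∈ Sp R := by
      show |(z0 + (x:ℂ)).im| < R
      simpa using hz0'
    show f (z0 + ((x + 1 : ℝ) : ℂ)) = f (z0 + x)
    rw [← per _ h3]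
    congr 1
    push_cast; ring
  have hc : Continuous (fun x : ℝ => f (z0 + x)) := by
    have h3 : ContinuousOn f (Sp R) := hf.continuousOn
    apply h3.comp_continuous (by fun_prop)
    intro x
    show |(z0 + (x:ℂ)).im| < R
    simpa using hz0'
  let F : C(UnitAddCircle, ℂ) := ⟨hp.lift, continuous_coinduced_dom.mpr hc⟩
  have hcoef : ∀ m : ℤ, fourierCoeff F m = c1 f m * Complex.exp (2 * Real.pi * m * I * z0) := by
    intro m
    rw [fourierCoeff_eq_intervalIntegral _ m 0, ← c1_shift R f hf per m z0 hz0]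
    simp only [zero_add, div_one, one_smul]
    apply intervalIntegral.integral_congr
    intro x _
    show fourier (-m) (x : UnitAddCircle) • F (x : UnitAddCircle)
      = f (z0 + x) * Complex.exp (-(2 * Real.pi * m * x : ℝ) * I)
    have h1 : F (x : UnitAddCircle) = f (z0 + x) := hp.lift_coe x
    rw [h1, smul_eq_mul, mul_comm, fourier_coe_apply]
    congr 2
    push_cast; ring
  have hs' : Summable (fourierCoeff F) := by
    have : (fourierCoeff F) = fun m : ℤ => c1 f m * Complex.exp (2 * Real.pi * m * I * z0) :=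
      funext hcoef
    rw [this]; exact hs
  have h := has_pointwise_sum_fourier_series_of_summable hs' ((0:ℝ) : UnitAddCircle)
  have h0 : F ((0:ℝ) : UnitAddCircle) = f z0 := by
    have : F ((0:ℝ) : UnitAddCircle) = f (z0 + (0:ℝ)) := hp.lift_coe 0
    rw [this]; simp
  rw [h0] at h
  have h1 : (fun i : ℤ => fourierCoeff F i • fourier i ((0:ℝ) : UnitAddCircle))
      = fun m : ℤ => c1 f m * Complex.exp (2 * Real.pi * m * I * z0) := by
    funext m
    rw [hcoef m, fourier_coe_apply]
    simp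
  rw [h1] at h
  exact h

/-- two sided geometric tail -/
theorem tail_hasSum (C q : ℝ) (hq0 : 0 ≤ q) (hq1 : q < 1) (M : ℕ) :
    HasSum (fun m : ℤ => if m ∈ Finset.Icc (-(M:ℤ)) (M:ℤ) then (0:ℝ) else C * q ^ m.natAbs)
      (C * q ^ (M + 1) / (1 - q) + C * q ^ (M + 1) / (1 - q)) := by
  have hbase : HasSum (fun n : ℕ => C * q ^ (n + (M + 1))) (C * q ^ (M + 1) / (1 - q)) := by
    have h := (hasSum_geometric_of_lt_one hq0 hq1).mul_left (C * q ^ (M + 1))
    have h2 : (fun n : ℕ => C * q ^ (n + (M + 1))) = fun n : ℕ => C * q ^ (M + 1) * q ^ n := by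
      funext n; rw [pow_add]; ring
    rw [h2, div_eq_mul_inv]
    exact h
  apply HasSum.of_nat_of_neg_add_one
  · have h1 : HasSum (fun n : ℕ => if ((n:ℤ)) ∈ Finset.Icc (-(M:ℤ)) (M:ℤ) then (0:ℝ)
        else C * q ^ ((n:ℤ)).natAbs) (C * q ^ (M + 1) / (1 - q)
          + ∑ i ∈ Finset.range (M + 1), (if ((i:ℤ)) ∈ Finset.Icc (-(M:ℤ)) (M:ℤ) then (0:ℝ)
        else C * q ^ ((i:ℤ)).natAbs)) := by
      rw [← hasSum_nat_add_iff (M + 1)]
      have h2 : (fun n : ℕ => if (((n + (M + 1) : ℕ):ℤ)) ∈ Finset.Icc (-(M:ℤ)) (M:ℤ) then (0:ℝ)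
        else C * q ^ (((n + (M + 1) : ℕ):ℤ)).natAbs) = fun n : ℕ => C * q ^ (n + (M + 1)) := by
        funext n
        rw [if_neg]
        · rw [Int.natAbs_natCast]
        · rw [Finset.mem_Icc]; push_cast; omega
      rw [h2]
      exact hbase
    have h3 : ∑ i ∈ Finset.range (M + 1), (if ((i:ℤ)) ∈ Finset.Icc (-(M:ℤ)) (M:ℤ) then (0:ℝ)
        else C * q ^ ((i:ℤ)).natAbs) = 0 := by
      apply Finset.sum_eq_zero
      intro i hi
      rw [Finset.mem_range] at hi
      rw [if_pos]
      rw [Finset.mem_Icc]; omega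
    rw [h3, add_zero] at h1
    exact h1
  · have h1 : HasSum (fun n : ℕ => if (-((n:ℤ) + 1)) ∈ Finset.Icc (-(M:ℤ)) (M:ℤ) then (0:ℝ)
        else C * q ^ (-((n:ℤ) + 1)).natAbs) (C * q ^ (M + 1) / (1 - q)
          + ∑ i ∈ Finset.range M, (if (-((i:ℤ) + 1)) ∈ Finset.Icc (-(M:ℤ)) (M:ℤ) then (0:ℝ)
        else C * q ^ (-((i:ℤ) + 1)).natAbs)) := by
      rw [← hasSum_nat_add_iff M]
      have h2 : (fun n : ℕ => if (-(((n + M : ℕ):ℤ) + 1)) ∈ Finset.Icc (-(M:ℤ)) (M:ℤ) then (0:ℝ)
        else C * q ^ (-(((n + M : ℕ):ℤ) + 1)).natAbs) = fun n : ℕ => C * q ^ (n + (M + 1)) := by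
        funext n
        rw [if_neg]
        · have h9 : (-(((n + M : ℕ):ℤ) + 1)).natAbs = n + (M + 1) := by omega
          rw [h9]
        · rw [Finset.mem_Icc]; push_cast; omega
      rw [h2]
      exact hbase
    have h3 : ∑ i ∈ Finset.range M, (if (-((i:ℤ) + 1)) ∈ Finset.Icc (-(M:ℤ)) (M:ℤ) then (0:ℝ)
        else C * q ^ (-((i:ℤ) + 1)).natAbs) = 0 := by
      apply Finset.sum_eq_zero
      intro i hi
      rw [Finset.mem_range] at hi
      rw [if_pos]
      rw [Finset.mem_Icc]; omega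
    rw [h3, add_zero] at h1
    exact h1

theorem gFour_of (hD : GD12) : GFour := by
  intro R S B E hR hS hE per hB
  have hw1 : ((3/2 : ℝ) : ℂ) ∈ Om S := Om_real (by linarith) (by linarith) hS
  have hreal : ∀ x : ℝ, ∀ w ∈ Om S, ((x:ℂ), w) ∈ Dom R S := by
    intro x w hw
    refine ⟨?_, hw⟩
    show |((x:ℂ)).im| < R
    simpa using hR
  have hB0 : 0 ≤ B := (norm_nonneg _).trans (hB _ (hreal 0 _ hw1))
  have hmem : ∀ w ∈ Om S, ∀ z ∈ Sp R, (z, w) ∈ Dom R S := fun w hw z hz => ⟨hz, hw⟩
  have slice : ∀ w ∈ Om S, DifferentiableOn ℂ (fun z => E (z, w)) (Sp R) := by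
    intro w hw
    have h1 : DifferentiableOn ℂ (fun z : ℂ => (z, w)) (Sp R) :=
      (differentiable_id.prodMk (differentiable_const _)).differentiableOn
    exact hE.comp h1 (fun z hz => hmem w hw z hz)
  have sper : ∀ w ∈ Om S, ∀ z ∈ Sp R, E (z + 1, w) = E (z, w) :=
    fun w hw z hz => per (z, w) (hmem w hw z hz)
  have sB : ∀ w ∈ Om S, ∀ z ∈ Sp R, ‖E (z, w)‖ ≤ B :=
    fun w hw z hz => hB (z, w) (hmem w hw z hz)
  have hcoef : ∀ m : ℤ, ∀ w ∈ Om S, ‖fc E m w‖ ≤ B * Real.exp (-(2 * Real.pi * |(m:ℝ)| * R)) :=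
    fun m w hw => c1_bound R B hR (fun z => E (z, w)) (slice w hw) (sper w hw) (sB w hw) m
  refine ⟨?_, hcoef, ?_⟩
  · intro m w0 hw0
    apply DifferentiableAt.differentiableWithinAt
    obtain ⟨ε, hε, hball⟩ := Metric.isOpen_iff.mp (isOpen_Om S) w0 hw0
    have hi : Continuous (fun x : ℝ => Complex.exp (-(2 * Real.pi * m * x : ℝ) * I)) := by
      fun_prop
    have hcE : ∀ w ∈ Om S, Continuous (fun x : ℝ => E ((x:ℂ), w)) := by
      intro w hw
      have h3 : ContinuousOn E (Dom R S) := hE.continuousOn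
      apply h3.comp_continuous (by fun_prop)
      intro x
      exact hreal x w hw
    have hcD : ∀ w ∈ Om S, Continuous (fun x : ℝ => D2 E ((x:ℂ), w)) := by
      intro w hw
      have h3 : ContinuousOn (D2 E) (Dom R S) :=
        (hD E (Dom R S) (isOpen_Dom R S) hE).2.1.continuousOn
      apply h3.comp_continuous (by fun_prop)
      intro x
      exact hreal x w hw
    have hsub : ∀ w ∈ Metric.ball w0 (ε/2), Metric.ball w (ε/2) ⊆ Om S := by
      intro w hw z hz
      apply hball
      rw [Metric.mem_ball] at *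
      have := dist_triangle z w w0
      linarith
    have hd := intervalIntegral.hasDerivAt_integral_of_dominated_loc_of_deriv_le
      (F := fun w x => E ((x:ℂ), w) * Complex.exp (-(2 * Real.pi * m * x : ℝ) * I))
      (F' := fun w x => D2 E ((x:ℂ), w) * Complex.exp (-(2 * Real.pi * m * x : ℝ) * I))
      (x₀ := w0) (s := Metric.ball w0 (ε/2)) (bound := fun _ => B / (ε/2)) (a := 0) (b := 1)
      (μ := volume) (Metric.ball_mem_nhds w0 (by linarith)) (by
        filter_upwards [Metric.ball_mem_nhds w0 (ε := ε/2) (by linarith)] with w hw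
        have hwO : w ∈ Om S := hsub w hw (Metric.mem_ball_self (by linarith))
        exact ((hcE w hwO).mul hi).aestronglyMeasurable)
      (((hcE w0 hw0).mul hi).intervalIntegrable _ _)
      (((hcD w0 hw0).mul hi).aestronglyMeasurable) (by
        apply Filter.Eventually.of_forall
        intro x _ w hw
        rw [norm_mul]
        have h3 : ‖Complex.exp (-(2 * Real.pi * m * x : ℝ) * I)‖ = 1 := by
          have : (-(2 * Real.pi * m * x : ℝ) * I : ℂ)
              = ((-(2 * Real.pi * m * x) : ℝ) : ℂ) * I := by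
            push_cast; ring
          rw [this, Complex.norm_exp_ofReal_mul_I]
        rw [h3, mul_one]
        exact cauD2 E (Dom R S) B (ε/2) (by linarith) hE hB ((x:ℂ), w)
          (fun z hz => hreal x z (hsub w hw hz)))
      intervalIntegrable_const (by
        apply Filter.Eventually.of_forall
        intro x _ w hw
        have hwO : w ∈ Om S := hsub w hw (Metric.mem_ball_self (by linarith))
        have h1 : DifferentiableAt ℂ (fun w' : ℂ => E ((x:ℂ), w')) w := by
          have h2 : DifferentiableAt ℂ E ((x:ℂ), w) :=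
            (hE _ (hreal x w hwO)).differentiableAt
              ((isOpen_Dom R S).mem_nhds (hreal x w hwO))
          exact h2.comp w
            ((differentiableAt_const _).prodMk differentiableAt_id)
        exact h1.hasDerivAt.mul_const _)
    exact hd.2.differentiableAt
  · intro M δ hδ hδR p hp
    obtain ⟨hp1, hp2⟩ := hp
    have hz0 : p.1 ∈ Sp R := by
      show |p.1.im| < R
      linarith
    set q : ℝ := Real.exp (-(2 * Real.pi * δ)) with hq
    have hx0 : 0 < 2 * Real.pi * δ := by have := Real.pi_pos; positivity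
    have hq0 : 0 ≤ q := (Real.exp_pos _).le
    have hq1 : q < 1 := by
      rw [hq]; exact Real.exp_lt_one_iff.mpr (by linarith)
    set a : ℤ → ℂ := fun m => fc E m p.2 * Complex.exp (2 * Real.pi * m * I * p.1) with ha
    have hterm : ∀ m : ℤ, ‖a m‖ ≤ B * q ^ m.natAbs := by
      intro m
      have h1 := hcoef m p.2 hp2
      have h2 : ‖Complex.exp (2 * Real.pi * m * I * p.1)‖
          = Real.exp (-(2 * Real.pi * m * p.1.im)) := by
        rw [Complex.norm_exp]
        congr 1
        have : (2 * Real.pi * m * I * p.1 : ℂ) = ((2 * Real.pi * m : ℝ) : ℂ) * (I * p.1) := by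
          push_cast; ring
        rw [this, Complex.re_ofReal_mul, Complex.I_mul_re]
        ring
      have h3 : -(m * p.1.im) ≤ |(m:ℝ)| * |p.1.im| := by
        rw [← abs_mul]; exact neg_le_abs _
      have h4 : |(m:ℝ)| * |p.1.im| ≤ |(m:ℝ)| * (R - δ) :=
        mul_le_mul_of_nonneg_left hp1.le (abs_nonneg _)
      show ‖fc E m p.2 * Complex.exp (2 * Real.pi * m * I * p.1)‖ ≤ B * q ^ m.natAbs
      rw [norm_mul, h2]
      have h5 : q ^ m.natAbs = Real.exp (-(2 * Real.pi * δ) * |(m:ℝ)|) := by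
        rw [hq, ← Real.exp_nat_mul]
        congr 1
        have : ((m.natAbs : ℕ) : ℝ) = |(m:ℝ)| := by
          rw [Nat.cast_natAbs, Int.cast_abs]
        rw [this]; ring
      rw [h5]
      calc ‖fc E m p.2‖ * Real.exp (-(2 * Real.pi * m * p.1.im))
          ≤ (B * Real.exp (-(2 * Real.pi * |(m:ℝ)| * R)))
              * Real.exp (-(2 * Real.pi * m * p.1.im)) :=
            mul_le_mul_of_nonneg_right h1 (Real.exp_pos _).le
        _ = B * Real.exp (-(2 * Real.pi * |(m:ℝ)| * R) + -(2 * Real.pi * m * p.1.im)) := by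
            rw [mul_assoc, ← Real.exp_add]
        _ ≤ B * Real.exp (-(2 * Real.pi * δ) * |(m:ℝ)|) := by
            apply mul_le_mul_of_nonneg_left _ hB0
            apply Real.exp_le_exp.mpr
            have hpi := Real.pi_pos
            nlinarith [mul_le_mul_of_nonneg_left (h3.trans h4)
              (by positivity : (0:ℝ) ≤ 2 * Real.pi)]
    have htail := tail_hasSum B q hq0 hq1 M
    have hsum : Summable a := by
      apply Summable.of_norm_bounded_eventually htail.summable
      have hfin : ((Finset.Icc (-(M:ℤ)) (M:ℤ) : Finset ℤ) : Set ℤ)ᶜ ∈ (cofinite : Filter ℤ) :=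
        (Finset.finite_toSet _).compl_mem_cofinite
      filter_upwards [hfin] with m hm
      have hm' : m ∉ Finset.Icc (-(M:ℤ)) (M:ℤ) := fun h => hm (Finset.mem_coe.mpr h)
      rw [if_neg hm']
      exact hterm m
    have hS1 : HasSum a (E p) :=
      hasSum_c1 R (fun z => E (z, p.2)) (slice p.2 hp2) (sper p.2 hp2) p.1 hz0 hsum
    have hS2 : HasSum (fun m : ℤ => if m ∈ Finset.Icc (-(M:ℤ)) (M:ℤ) then a m else 0)
        (∑ m ∈ Finset.Icc (-(M:ℤ)) (M:ℤ), a m) := by
      have h : HasSum (fun m : ℤ => if m ∈ Finset.Icc (-(M:ℤ)) (M:ℤ) then a m else 0)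
          (∑ m ∈ Finset.Icc (-(M:ℤ)) (M:ℤ),
            (if m ∈ Finset.Icc (-(M:ℤ)) (M:ℤ) then a m else 0)) :=
        hasSum_sum_of_ne_finset_zero (fun m hm => if_neg hm)
      have h2 : ∑ m ∈ Finset.Icc (-(M:ℤ)) (M:ℤ),
          (if m ∈ Finset.Icc (-(M:ℤ)) (M:ℤ) then a m else 0)
          = ∑ m ∈ Finset.Icc (-(M:ℤ)) (M:ℤ), a m :=
        Finset.sum_congr rfl (fun m hm => if_pos hm)
      rw [h2] at h
      exact h
    have hfinal := (hS1.sub hS2).norm_le_of_bounded htail (by
      intro m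
      by_cases hm : m ∈ Finset.Icc (-(M:ℤ)) (M:ℤ)
      · rw [if_pos hm, if_pos hm]; simp
      · rw [if_neg hm, if_neg hm, sub_zero]
        exact hterm m)
    refine hfinal.trans ?_
    -- numerical estimate
    have hqM : q ^ M = Real.exp (-(2 * Real.pi * M * δ)) := by
      rw [hq, ← Real.exp_nat_mul]
      congr 1; ring
    have hkey : q * (1 + 2 * δ) ≤ 1 := by
      have h1 : 1 + 2 * δ ≤ Real.exp (2 * Real.pi * δ) := by
        have h2 := Real.add_one_le_exp (2 * Real.pi * δ)
        have h3 : 1 ≤ Real.pi := by linarith [Real.pi_gt_three]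
        nlinarith
      have h4 : q * Real.exp (2 * Real.pi * δ) = 1 := by
        rw [hq, ← Real.exp_add]; simp
      calc q * (1 + 2 * δ) ≤ q * Real.exp (2 * Real.pi * δ) :=
            mul_le_mul_of_nonneg_left h1 hq0
        _ = 1 := h4
    rw [← hqM]
    have h1q : 0 < 1 - q := by linarith
    have hBq : 0 ≤ B * q ^ M := by positivity
    rw [← add_div, div_le_iff₀ h1q]
    have h7 : B / δ * q ^ M * (1 - q) = (B * q ^ M) * ((1 - q) / δ) := by ring
    have h8 : B * q ^ (M + 1) + B * q ^ (M + 1) = (B * q ^ M) * (2 * q) := by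
      rw [pow_succ]; ring
    rw [h7, h8]
    apply mul_le_mul_of_nonneg_left _ hBq
    rw [le_div_iff₀ hδ]
    nlinarith

end Pool.Agent.Helper89.TW
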