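import Pool.Agent.Helper83.TW.Goals1
import Pool.Agent.Helper89.TW.Four

/-! The approximate cohomological equation (packet TW-GCoh). -/

set_option autoImplicit false

namespace Pool.Agent.Helper89.TW

open Complex Set Pool.Agent.Helper83.TW MeasureTheory Filter
open scoped Interval Topology

theorem cj_sub (a b : ℂ) : cj (a - b) = cj a - cj b := map_sub _ _ _

theorem cj_add (a b : ℂ) : cj (a + b) = cj a + cj b := map_add _ _ _

theorem cj_cj (a : ℂ) : cj (cj a) = a := Complex.conj_conj a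

theorem cj_half (a : ℂ) : cj (a / 2) = cj a / 2 := by
  have h : cj (a / 2) = cj a / cj (2:ℂ) := map_div₀ _ _ _
  have h3 : cj (2:ℂ) = 2 := Complex.conj_ofNat 2
  rw [h, h3]

theorem cjcj_diff {f : ℂ × ℂ → ℂ} {r s : ℝ} (hf : DifferentiableOn ℂ f (Dom r s)) :
    DifferentiableOn ℂ (fun p : ℂ × ℂ => cj (f (cj p.1, cj p.2))) (Dom r s) := by
  intro p hp
  have hp' : (cj p.1, cj p.2) ∈ Dom r s := Dom_cj hp
  have h1 : DifferentiableAt ℂ f (star p) :=
    (hf _ hp').differentiableAt ((isOpen_Dom r s).mem_nhds hp')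
  have h2 := h1.star_star
  rw [star_star] at h2
  exact h2.differentiableWithinAt

/-- geometric sum over the nonzero frequencies -/
theorem sum_q_le (δ : ℝ) (hδ : 0 < δ) (M : ℕ) :
    ∑ m ∈ (Finset.Icc (-(M:ℤ)) (M:ℤ)).erase 0, Real.exp (-(2 * Real.pi * δ)) ^ m.natAbs
      ≤ 1 / δ := by
  set q : ℝ := Real.exp (-(2 * Real.pi * δ)) with hq
  have hx0 : 0 < 2 * Real.pi * δ := by have := Real.pi_pos; positivity
  have hq0 : 0 ≤ q := (Real.exp_pos _).le
  have hq1 : q < 1 := by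
    rw [hq]; exact Real.exp_lt_one_iff.mpr (by linarith)
  have htail := tail_hasSum 1 q hq0 hq1 0
  have h1 := sum_le_hasSum ((Finset.Icc (-(M:ℤ)) (M:ℤ)).erase 0) (fun m _ => by
    show 0 ≤ if m ∈ Finset.Icc (-((0:ℕ):ℤ)) ((0:ℕ):ℤ) then (0:ℝ) else 1 * q ^ m.natAbs
    split_ifs
    · exact le_rfl
    · positivity) htail
  have h2 : ∑ m ∈ (Finset.Icc (-(M:ℤ)) (M:ℤ)).erase 0,
      (if m ∈ Finset.Icc (-((0:ℕ):ℤ)) ((0:ℕ):ℤ) then (0:ℝ) else 1 * q ^ m.natAbs)
      = ∑ m ∈ (Finset.Icc (-(M:ℤ)) (M:ℤ)).erase 0, q ^ m.natAbs := by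
    apply Finset.sum_congr rfl
    intro m hm
    rw [Finset.mem_erase] at hm
    rw [if_neg, one_mul]
    rw [Finset.mem_Icc]
    push_cast
    have := hm.1
    omega
  rw [h2] at h1
  refine h1.trans ?_
  have hkey : q * (1 + 2 * δ) ≤ 1 := by
    have h1 : 1 + 2 * δ ≤ Real.exp (2 * Real.pi * δ) := by
      have h2 := Real.add_one_le_exp (2 * Real.pi * δ)
      have h3 : 1 ≤ Real.pi := by linarith [Real.pi_gt_three]
      nlinarith
    have h4 : q * Real.exp (2 * Real.pi * δ) = 1 := by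
      rw [hq, ← Real.exp_add]; simp
    calc q * (1 + 2 * δ) ≤ q * Real.exp (2 * Real.pi * δ) :=
          mul_le_mul_of_nonneg_left h1 hq0
      _ = 1 := h4
  have h1q : 0 < 1 - q := by linarith
  rw [← add_div, div_le_div_iff₀ h1q hδ]
  simp only [zero_add, pow_one, one_mul]
  nlinarith

theorem norm_exp_strip (m : ℤ) (z : ℂ) (h : ℝ) (hz : |z.im| ≤ h) :
    ‖Complex.exp (2 * Real.pi * m * I * z)‖ ≤ Real.exp (2 * Real.pi * |(m:ℝ)| * h) := by
  rw [Complex.norm_exp]
  apply Real.exp_le_exp.mpr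
  have h1 : (2 * Real.pi * m * I * z : ℂ) = ((2 * Real.pi * m : ℝ) : ℂ) * (I * z) := by
    push_cast; ring
  rw [h1, Complex.re_ofReal_mul, Complex.I_mul_re]
  have h3 : -((m:ℝ) * z.im) ≤ |(m:ℝ)| * |z.im| := by
    rw [← abs_mul]; exact neg_le_abs _
  have h4 : |(m:ℝ)| * |z.im| ≤ |(m:ℝ)| * h :=
    mul_le_mul_of_nonneg_left hz (abs_nonneg _)
  have hpi := Real.pi_pos
  nlinarith [mul_le_mul_of_nonneg_left (h3.trans h4) (by positivity : (0:ℝ) ≤ 2 * Real.pi)]

theorem qpow (δ : ℝ) (m : ℤ) :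
    Real.exp (-(2 * Real.pi * δ)) ^ m.natAbs = Real.exp (-(2 * Real.pi * |(m:ℝ)| * δ)) := by
  rw [← Real.exp_nat_mul]
  congr 1
  have : ((m.natAbs : ℕ) : ℝ) = |(m:ℝ)| := by
    rw [Nat.cast_natAbs, Int.cast_abs]
  rw [this]; ring

theorem fc_cj (E : ℂ × ℂ → ℂ) (w : ℂ) (h : ∀ x : ℝ, E ((x:ℂ), cj w) = cj (E ((x:ℂ), w))) :
    fc E 0 (cj w) = cj (fc E 0 w) := by
  unfold fc
  have h1 : (cj (∫ x in (0:ℝ)..1, E ((x : ℂ), w)
      * Complex.exp (-(2 * Real.pi * (0:ℤ) * x : ℝ) * I)))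
      = ∫ x in (0:ℝ)..1, cj (E ((x : ℂ), w)
      * Complex.exp (-(2 * Real.pi * (0:ℤ) * x : ℝ) * I)) := by
    rw [intervalIntegral.integral_of_le zero_le_one, intervalIntegral.integral_of_le zero_le_one]
    exact (integral_conj).symm
  rw [h1]
  apply intervalIntegral.integral_congr
  intro x _
  show E ((x:ℂ), cj w) * Complex.exp (-(2 * Real.pi * (0:ℤ) * x : ℝ) * I)
    = cj (E ((x : ℂ), w) * Complex.exp (-(2 * Real.pi * (0:ℤ) * x : ℝ) * I))
  rw [h x]
  simp

theorem gCoh_of (hF : GFour) (hV : GDiv) : GCoh := by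
  intro ρ r s δ Λ η M P E hE hEb hres
  obtain ⟨hρ0, hρ1, hr0, hr1, hδ0, hδ1, hs0, hs1, hΛ, hΛs, hM0, hMΛ, hMs, hη0, hη⟩ := P
  have hΛδ : 1 ≤ Λ * δ := hΛs.trans (mul_le_mul_of_nonneg_left hs1 (by linarith))
  have hΛpos : 0 < Λ := by linarith
  have hrδ : 0 < r - δ := by linarith
  have h5 : 5 * δ ≤ r - δ := by linarith
  have hpi := Real.pi_pos
  have hF1 := hF (r - δ) s η E hrδ hs0 hE.diff (fun p hp => hE.per p hp) hEb
  obtain ⟨hFd, hFb, hFt⟩ := hF1
  -- the divided coefficients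
  have hdiv : ∀ m : ℤ, m ∈ (Finset.Icc (-(M:ℤ)) (M:ℤ)).erase 0 →
      ∃ κ ρm : ℂ → ℂ, DifferentiableOn ℂ κ (Om (s/2)) ∧
      (∀ w ∈ Om (s/2), ‖ρm w‖ ≤ 100 * |(m:ℝ)| * (Λ^14 * η^2 *
        Real.exp (-(2 * Real.pi * |(m:ℝ)| * (r - 4*δ))))) ∧
      (∀ w ∈ Om (s/2), ‖κ w‖ ≤ 32 * η / s * Real.exp (-(2 * Real.pi * |(m:ℝ)| * (r - 4*δ)))) ∧
      (∀ w ∈ Om (s/2), κ w * (Complex.exp (2 * Real.pi * m * I * w) - 1)
        = fc E m w - ρm w) := by
    intro m hm
    rw [Finset.mem_erase, Finset.mem_Icc] at hm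
    obtain ⟨hm0, hm1, hm2⟩ := hm
    have hmM : |m| ≤ (M:ℤ) := abs_le.mpr ⟨hm1, hm2⟩
    have hmR : |(m:ℝ)| ≤ M := by
      have : ((|m| : ℤ) : ℝ) ≤ ((M:ℤ) : ℝ) := by exact_mod_cast hmM
      rw [Int.cast_abs] at this
      simpa using this
    have hm1R : 1 ≤ |(m:ℝ)| := by
      have : (1:ℤ) ≤ |m| := Int.one_le_abs hm0
      have h2 : ((1:ℤ):ℝ) ≤ ((|m| : ℤ) : ℝ) := by exact_mod_cast this
      rw [Int.cast_abs] at h2
      simpa using h2
    set X : ℝ := Real.exp (-(2 * Real.pi * |(m:ℝ)| * (r - 4*δ))) with hX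
    have hXpos : 0 < X := Real.exp_pos _
    have hms : |(m:ℝ)| * s ≤ 1 := (mul_le_mul_of_nonneg_right hmR hs0.le).trans hMs
    obtain ⟨κ, ρm, h1, _, h3, h4, h5'⟩ := hV s
      (η * Real.exp (-(2 * Real.pi * |(m:ℝ)| * (r - δ)))) (Λ^14 * η^2 * X) m (fc E m)
      hs0 (by linarith) hm0 hms (hFd m) (hFb m) (by positivity)
      (fun j hj1 hj2 => hres m j hm0 hmM hj1 hj2)
    refine ⟨κ, ρm, h1, h3, ?_, h5'⟩
    intro w hw
    refine (h4 w hw).trans ?_
    have hB1 : η * Real.exp (-(2 * Real.pi * |(m:ℝ)| * (r - δ))) ≤ η * X := by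
      apply mul_le_mul_of_nonneg_left _ hη0.le
      apply Real.exp_le_exp.mpr
      have : 2 * Real.pi * |(m:ℝ)| * (r - 4*δ) ≤ 2 * Real.pi * |(m:ℝ)| * (r - δ) :=
        mul_le_mul_of_nonneg_left (by linarith) (by positivity)
      linarith
    have hB2 : 100 * |(m:ℝ)| * (Λ^14 * η^2 * X) ≤ η * X := by
      have h6 : 100 * |(m:ℝ)| * Λ^14 * η ≤ 1 := by
        have h7 : 100 * |(m:ℝ)| * Λ^14 ≤ Λ^40 := by
          calc 100 * |(m:ℝ)| * Λ^14 ≤ Λ * Λ * Λ^14 := by
                apply mul_le_mul_of_nonneg_right _ (by positivity)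
                apply mul_le_mul (by linarith) (hmR.trans hMΛ) (abs_nonneg _) hΛpos.le
            _ = Λ^16 := by ring
            _ ≤ Λ^40 := pow_le_pow_right₀ (by linarith) (by norm_num)
        exact (mul_le_mul_of_nonneg_right h7 hη0.le).trans hη
      have h8 : 0 ≤ η * X := by positivity
      calc 100 * |(m:ℝ)| * (Λ^14 * η^2 * X) = (100 * |(m:ℝ)| * Λ^14 * η) * (η * X) := by ring
        _ ≤ 1 * (η * X) := mul_le_mul_of_nonneg_right h6 h8
        _ = η * X := one_mul _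
    have hden : 16 / (|(m:ℝ)| * s) ≤ 16 / s := by
      apply div_le_div_of_nonneg_left (by norm_num) hs0
      nlinarith
    calc 16 / (|(m:ℝ)| * s) * (η * Real.exp (-(2 * Real.pi * |(m:ℝ)| * (r - δ)))
            + 100 * |(m:ℝ)| * (Λ^14 * η^2 * X))
        ≤ 16 / (|(m:ℝ)| * s) * (η * X + η * X) := by
          apply mul_le_mul_of_nonneg_left (add_le_add hB1 hB2)
          positivity
      _ ≤ 16 / s * (η * X + η * X) := by
          apply mul_le_mul_of_nonneg_right hden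
          positivity
      _ = 32 * η / s * X := by ring
  choose! κm ρm hκd hρb hκb hκe using hdiv
  set T : Finset ℤ := (Finset.Icc (-(M:ℤ)) (M:ℤ)).erase 0 with hT
  set κt : ℂ × ℂ → ℂ := fun p => ∑ m ∈ T, κm m p.2 * Complex.exp (2 * Real.pi * m * I * p.1)
    with hκt
  have hκtd : DifferentiableOn ℂ κt (Dom (r - 5*δ) (s/2)) := by
    apply DifferentiableOn.fun_sum
    intro m hm
    apply DifferentiableOn.mul
    · exact (hκd m hm).comp differentiable_snd.differentiableOn (fun p hp => hp.2)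
    · apply Differentiable.differentiableOn
      fun_prop
  have hκtb : ∀ p ∈ Dom (r - 5*δ) (s/2), ‖κt p‖ ≤ Λ^3 * η := by
    intro p hp
    have h1 : ∀ m ∈ T, ‖κm m p.2 * Complex.exp (2 * Real.pi * m * I * p.1)‖
        ≤ 32 * η / s * Real.exp (-(2 * Real.pi * δ)) ^ m.natAbs := by
      intro m hm
      rw [norm_mul, qpow]
      have h2 := hκb m hm p.2 hp.2
      have h3 := norm_exp_strip m p.1 (r - 5*δ) hp.1.le
      calc ‖κm m p.2‖ * ‖Complex.exp (2 * Real.pi * m * I * p.1)‖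
          ≤ (32 * η / s * Real.exp (-(2 * Real.pi * |(m:ℝ)| * (r - 4*δ))))
              * Real.exp (2 * Real.pi * |(m:ℝ)| * (r - 5*δ)) :=
            mul_le_mul h2 h3 (norm_nonneg _) (by positivity)
        _ = 32 * η / s * Real.exp (-(2 * Real.pi * |(m:ℝ)| * δ)) := by
            rw [mul_assoc, ← Real.exp_add]
            congr 2
            ring
    calc ‖κt p‖ ≤ ∑ m ∈ T, ‖κm m p.2 * Complex.exp (2 * Real.pi * m * I * p.1)‖ :=
          norm_sum_le _ _
      _ ≤ ∑ m ∈ T, 32 * η / s * Real.exp (-(2 * Real.pi * δ)) ^ m.natAbs :=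
          Finset.sum_le_sum h1
      _ = 32 * η / s * ∑ m ∈ T, Real.exp (-(2 * Real.pi * δ)) ^ m.natAbs := by
          rw [Finset.mul_sum]
      _ ≤ 32 * η / s * (1 / δ) := by
          apply mul_le_mul_of_nonneg_left (sum_q_le δ hδ0 M)
          positivity
      _ ≤ Λ^3 * η := by
          have hs' : 1 / s ≤ Λ := by rw [div_le_iff₀ hs0]; exact hΛs
          have hδ' : 1 / δ ≤ Λ := by rw [div_le_iff₀ hδ0]; exact hΛδ
          have h6 : (1 / s) * (1 / δ) ≤ Λ * Λ :=
            mul_le_mul hs' hδ' (by positivity) hΛpos.le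
          calc 32 * η / s * (1 / δ) = (32 * η) * ((1 / s) * (1 / δ)) := by ring
            _ ≤ (32 * η) * (Λ * Λ) := mul_le_mul_of_nonneg_left h6 (by positivity)
            _ ≤ (Λ * η) * (Λ * Λ) := by
                apply mul_le_mul_of_nonneg_right _ (by positivity)
                exact mul_le_mul_of_nonneg_right (by linarith) hη0.le
            _ = Λ^3 * η := by ring
  have hκtper : ∀ p : ℂ × ℂ, κt (p.1 + 1, p.2) = κt p := by
    intro p
    apply Finset.sum_congr rfl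
    intro m _
    show κm m p.2 * Complex.exp (2 * Real.pi * m * I * (p.1 + 1))
      = κm m p.2 * Complex.exp (2 * Real.pi * m * I * p.1)
    have h1 : (2 * Real.pi * m * I * (p.1 + 1) : ℂ)
        = 2 * Real.pi * m * I * p.1 + (m : ℂ) * (2 * Real.pi * I) := by ring
    rw [h1, Complex.exp_add, Complex.exp_int_mul_two_pi_mul_I, mul_one]
  -- the residual of κt
  have hstep : ∀ p ∈ Dom (r - 6*δ) (s/2),
      ‖E p - fc E 0 p.2 - (κt (p.1 + p.2, p.2) - κt p)‖
        ≤ Λ * η * Real.exp (-(2 * Real.pi * M * δ)) + Λ^18 * η^2 := by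
    intro p hp
    have h1 : κt (p.1 + p.2, p.2) - κt p
        = ∑ m ∈ T, fc E m p.2 * Complex.exp (2 * Real.pi * m * I * p.1)
          - ∑ m ∈ T, ρm m p.2 * Complex.exp (2 * Real.pi * m * I * p.1) := by
      rw [hκt, ← Finset.sum_sub_distrib, ← Finset.sum_sub_distrib]
      apply Finset.sum_congr rfl
      intro m hm
      show κm m p.2 * Complex.exp (2 * Real.pi * m * I * (p.1 + p.2))
          - κm m p.2 * Complex.exp (2 * Real.pi * m * I * p.1)
        = fc E m p.2 * Complex.exp (2 * Real.pi * m * I * p.1)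
          - ρm m p.2 * Complex.exp (2 * Real.pi * m * I * p.1)
      have h2 := hκe m hm p.2 hp.2
      have h3 : Complex.exp (2 * Real.pi * m * I * (p.1 + p.2))
          = Complex.exp (2 * Real.pi * m * I * p.1)
            * Complex.exp (2 * Real.pi * m * I * p.2) := by
        rw [← Complex.exp_add]; congr 1; ring
      rw [h3]
      linear_combination Complex.exp (2 * Real.pi * m * I * p.1) * h2
    have h0mem : (0:ℤ) ∈ Finset.Icc (-(M:ℤ)) (M:ℤ) := by
      rw [Finset.mem_Icc]; omega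
    have h2 : ∑ m ∈ Finset.Icc (-(M:ℤ)) (M:ℤ),
        fc E m p.2 * Complex.exp (2 * Real.pi * m * I * p.1)
        = fc E 0 p.2 + ∑ m ∈ T, fc E m p.2 * Complex.exp (2 * Real.pi * m * I * p.1) := by
      rw [hT, ← Finset.add_sum_erase _ _ h0mem]
      congr 1
      simp
    have h3 : E p - fc E 0 p.2 - (κt (p.1 + p.2, p.2) - κt p)
        = (E p - ∑ m ∈ Finset.Icc (-(M:ℤ)) (M:ℤ),
            fc E m p.2 * Complex.exp (2 * Real.pi * m * I * p.1))
          + ∑ m ∈ T, ρm m p.2 * Complex.exp (2 * Real.pi * m * I * p.1) := by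
      rw [h1, h2]; ring
    rw [h3]
    refine (norm_add_le _ _).trans (add_le_add ?_ ?_)
    · have h4 := hFt M (5*δ) (by linarith) h5 p
        ⟨by have := hp.1; show |p.1.im| < r - δ - 5*δ; linarith,
          Om_mono (by linarith) hp.2⟩
      refine h4.trans ?_
      have h6 : Real.exp (-(2 * Real.pi * M * (5*δ))) ≤ Real.exp (-(2 * Real.pi * M * δ)) := by
        apply Real.exp_le_exp.mpr
        have : 2 * Real.pi * M * δ ≤ 2 * Real.pi * M * (5*δ) :=
          mul_le_mul_of_nonneg_left (by linarith) (by positivity)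
        linarith
      have h7 : η / (5*δ) ≤ Λ * η := by
        rw [div_le_iff₀ (by positivity)]
        nlinarith [mul_le_mul_of_nonneg_left hΛδ hη0.le]
      exact mul_le_mul h7 h6 (Real.exp_pos _).le (by positivity)
    · have h8 : ∀ m ∈ T, ‖ρm m p.2 * Complex.exp (2 * Real.pi * m * I * p.1)‖
          ≤ 100 * M * Λ^14 * η^2 * Real.exp (-(2 * Real.pi * δ)) ^ m.natAbs := by
        intro m hm
        have hm' := hm
        rw [hT, Finset.mem_erase, Finset.mem_Icc] at hm'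
        have hmR : |(m:ℝ)| ≤ M := by
          have h9 : |m| ≤ (M:ℤ) := abs_le.mpr hm'.2
          have : ((|m| : ℤ) : ℝ) ≤ ((M:ℤ) : ℝ) := by exact_mod_cast h9
          rw [Int.cast_abs] at this
          simpa using this
        rw [norm_mul, qpow]
        have h9 := hρb m hm p.2 hp.2
        have h10 := norm_exp_strip m p.1 (r - 6*δ) hp.1.le
        calc ‖ρm m p.2‖ * ‖Complex.exp (2 * Real.pi * m * I * p.1)‖
            ≤ (100 * |(m:ℝ)| * (Λ^14 * η^2 * Real.exp (-(2 * Real.pi * |(m:ℝ)| * (r - 4*δ)))))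
                * Real.exp (2 * Real.pi * |(m:ℝ)| * (r - 6*δ)) :=
              mul_le_mul h9 h10 (norm_nonneg _) (by positivity)
          _ = 100 * |(m:ℝ)| * Λ^14 * η^2 * (Real.exp (-(2 * Real.pi * |(m:ℝ)| * (r - 4*δ)))
                * Real.exp (2 * Real.pi * |(m:ℝ)| * (r - 6*δ))) := by ring
          _ = 100 * |(m:ℝ)| * Λ^14 * η^2 * Real.exp (-(2 * Real.pi * |(m:ℝ)| * (2*δ))) := by
              rw [← Real.exp_add]
              congr 2
              ring
          _ ≤ 100 * M * Λ^14 * η^2 * Real.exp (-(2 * Real.pi * |(m:ℝ)| * δ)) := by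
              apply mul_le_mul
              · apply mul_le_mul_of_nonneg_right _ (by positivity)
                apply mul_le_mul_of_nonneg_right _ (by positivity)
                exact mul_le_mul_of_nonneg_left hmR (by norm_num)
              · apply Real.exp_le_exp.mpr
                have : 2 * Real.pi * |(m:ℝ)| * δ ≤ 2 * Real.pi * |(m:ℝ)| * (2*δ) :=
                  mul_le_mul_of_nonneg_left (by linarith) (by positivity)
                linarith
              · exact (Real.exp_pos _).le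
              · positivity
      calc ‖∑ m ∈ T, ρm m p.2 * Complex.exp (2 * Real.pi * m * I * p.1)‖
          ≤ ∑ m ∈ T, ‖ρm m p.2 * Complex.exp (2 * Real.pi * m * I * p.1)‖ := norm_sum_le _ _
        _ ≤ ∑ m ∈ T, 100 * M * Λ^14 * η^2 * Real.exp (-(2 * Real.pi * δ)) ^ m.natAbs :=
            Finset.sum_le_sum h8
        _ = 100 * M * Λ^14 * η^2 * ∑ m ∈ T, Real.exp (-(2 * Real.pi * δ)) ^ m.natAbs := by
            rw [Finset.mul_sum]
        _ ≤ 100 * M * Λ^14 * η^2 * (1 / δ) := by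
            apply mul_le_mul_of_nonneg_left (sum_q_le δ hδ0 M)
            positivity
        _ ≤ Λ^18 * η^2 := by
            have hδ' : 1 / δ ≤ Λ := by rw [div_le_iff₀ hδ0]; exact hΛδ
            calc 100 * M * Λ^14 * η^2 * (1 / δ)
                ≤ 100 * Λ * Λ^14 * η^2 * Λ := by
                  apply mul_le_mul _ hδ' (by positivity) (by positivity)
                  apply mul_le_mul_of_nonneg_right _ (by positivity)
                  apply mul_le_mul_of_nonneg_right _ (by positivity)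
                  exact mul_le_mul_of_nonneg_left hMΛ (by norm_num)
              _ = 100 * (Λ^16 * η^2) := by ring
              _ ≤ (Λ^2) * (Λ^16 * η^2) := by
                  apply mul_le_mul_of_nonneg_right _ (by positivity)
                  nlinarith
              _ = Λ^18 * η^2 := by ring
  -- symmetrisation
  have hcjE : ∀ p ∈ Dom (r - δ) s, E (cj p.1, cj p.2) = cj (E p) := hE.sym
  refine ⟨fun p => (κt p + cj (κt (cj p.1, cj p.2))) / 2, ⟨?_, ?_, ?_⟩, ?_, ?_⟩
  · have h1 : DifferentiableOn ℂ (fun p : ℂ × ℂ => κt p + cj (κt (cj p.1, cj p.2)))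
        (Dom (r - 5*δ) (s/2)) := hκtd.add (cjcj_diff hκtd)
    refine (h1.const_mul ((1:ℂ)/2)).congr (fun p _ => ?_)
    show (κt p + cj (κt (cj p.1, cj p.2))) / 2
      = (1:ℂ)/2 * (κt p + cj (κt (cj p.1, cj p.2)))
    ring
  · intro p hp
    show (κt (p.1 + 1, p.2) + cj (κt (cj (p.1 + 1), cj p.2))) / 2
      = (κt p + cj (κt (cj p.1, cj p.2))) / 2
    have h1 : cj (p.1 + 1) = cj p.1 + 1 := by simp
    rw [h1, hκtper p, hκtper (cj p.1, cj p.2)]
  · intro p hp
    show (κt (cj p.1, cj p.2) + cj (κt (cj (cj p.1), cj (cj p.2)))) / 2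
      = cj ((κt p + cj (κt (cj p.1, cj p.2))) / 2)
    rw [cj_cj, cj_cj, cj_half, cj_add, cj_cj]
    ring
  · intro p hp
    show ‖(κt p + cj (κt (cj p.1, cj p.2))) / 2‖ ≤ Λ^3 * η
    rw [norm_div]
    have h1 := hκtb p hp
    have h2 := hκtb _ (Dom_cj hp)
    have h3 : ‖cj (κt (cj p.1, cj p.2))‖ = ‖κt (cj p.1, cj p.2)‖ := Complex.norm_conj _
    have h4 : ‖(2:ℂ)‖ = 2 := by simp
    rw [h4, div_le_iff₀ (by norm_num)]
    refine (norm_add_le _ _).trans ?_
    rw [h3]
    linarith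
  · intro p hp
    set X : ℝ := Λ * η * Real.exp (-(2 * Real.pi * M * δ)) + Λ^18 * η^2 with hX
    show ‖E p - fc E 0 p.2 - ((κt (p.1 + p.2, p.2) + cj (κt (cj (p.1 + p.2), cj p.2))) / 2
      - (κt p + cj (κt (cj p.1, cj p.2))) / 2)‖ ≤ X
    have h1 := hstep p hp
    have h2 := hstep (cj p.1, cj p.2) (Dom_cj hp)
    have hpin : p ∈ Dom (r - δ) s := Dom_mono (by linarith) (by linarith) hp
    have h3 : E (cj p.1, cj p.2) = cj (E p) := hcjE p hpin
    have h4 : fc E 0 (cj p.2) = cj (fc E 0 p.2) := by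
      apply fc_cj
      intro x
      have h5 : ((x:ℂ), p.2) ∈ Dom (r - δ) s := by
        refine ⟨?_, hpin.2⟩
        show |((x:ℂ)).im| < r - δ
        simpa using hrδ
      have h6 := hcjE _ h5
      simpa using h6
    have h5 : ‖cj (E (cj p.1, cj p.2) - fc E 0 (cj p.2)
        - (κt (cj p.1 + cj p.2, cj p.2) - κt (cj p.1, cj p.2)))‖ ≤ X := by
      rw [Complex.norm_conj]
      exact h2
    have h6 : cj (p.1 + p.2) = cj p.1 + cj p.2 := map_add _ _ _
    have h7 : E p - fc E 0 p.2 - ((κt (p.1 + p.2, p.2) + cj (κt (cj (p.1 + p.2), cj p.2))) / 2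
        - (κt p + cj (κt (cj p.1, cj p.2))) / 2)
        = ((E p - fc E 0 p.2 - (κt (p.1 + p.2, p.2) - κt p))
          + cj (E (cj p.1, cj p.2) - fc E 0 (cj p.2)
            - (κt (cj p.1 + cj p.2, cj p.2) - κt (cj p.1, cj p.2)))) / 2 := by
      rw [h3, h4, h6, cj_sub, cj_sub, cj_sub, cj_cj, cj_cj]
      ring
    rw [h7, norm_div]
    have h8 : ‖(2:ℂ)‖ = 2 := by simp
    rw [h8, div_le_iff₀ (by norm_num)]
    refine (norm_add_le _ _).trans ?_
    linarith

end Pool.Agent.Helper89.TW
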